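import Pool.Agent.Lib.MP_a43909_al.SJ.Lead

/-!
# The algebras `KK`
-/

set_option autoImplicit false

namespace Pool.Agent.Lib.MP_a43909_al.SJ

open Polynomial

section

variable {F G : Type*} [Field F] [Ring G] [Algebra F G] {E O : Submodule F G}

/-- the algebra of pairs `(b, c)` with `b` even without constant term and `c` odd with constant
term in `W` -/
noncomputable def BB (H : SC E O) (W : Submodule F G) : NonUnitalSubalgebra F (Jh G) where
  carrier := {x | Par E O x ∧ x.1.coeff 0 = 0 ∧ x.2.coeff 0 ∈ W}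
  add_mem' := by
    rintro x y ⟨⟨hx1, hx2⟩, hx3, hx4⟩ ⟨⟨hy1, hy2⟩, hy3, hy4⟩
    refine ⟨⟨hx1.add hy1, hx2.add hy2⟩, ?_, ?_⟩
    · rw [jadd_fst, coeff_add, hx3, hy3, add_zero]
    · rw [jadd_snd, coeff_add]; exact W.add_mem hx4 hy4
  zero_mem' := by
    refine ⟨⟨fun n => ?_, fun n => ?_⟩, ?_, ?_⟩
    · rw [jzero_fst, coeff_zero]; exact E.zero_mem
    · rw [jzero_snd, coeff_zero]; exact O.zero_mem
    · rw [jzero_fst, coeff_zero]
    · rw [jzero_snd, coeff_zero]; exact W.zero_mem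
  mul_mem' := by
    rintro x y ⟨hx, hx3, hx4⟩ ⟨hy, hy3, hy4⟩
    refine ⟨hx.mul H hy, ?_, ?_⟩
    · rw [jmul_fst, coeff_sub, coeff_add, mul_coeff_zero, mul_coeff_zero, mul_coeff_zero,
        coeff_dd, coeff_dd, hx3]
      simp
    · rw [jmul_snd, coeff_add, mul_coeff_zero, mul_coeff_zero, hx3, hy3]
      simp
  smul_mem' := by
    rintro t x ⟨⟨hx1, hx2⟩, hx3, hx4⟩
    refine ⟨⟨hx1.smul t, hx2.smul t⟩, ?_, ?_⟩
    · rw [jsmul_fst, coeff_smul, hx3, smul_zero]
    · rw [jsmul_snd, coeff_smul]; exact W.smul_mem t hx4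

/-- the ideal -/
noncomputable def LL (p : ℕ) (τ : G →ₗ[F] F) : Submodule F (Jh G) where
  carrier := {x | (∀ i < p, x.1.coeff i = 0) ∧ (∀ i < p, x.2.coeff i = 0) ∧
    τ (x.1.coeff p) = 0}
  add_mem' := by
    rintro x y ⟨hx1, hx2, hx3⟩ ⟨hy1, hy2, hy3⟩
    refine ⟨fun i hi => ?_, fun i hi => ?_, ?_⟩
    · rw [jadd_fst, coeff_add, hx1 i hi, hy1 i hi, add_zero]
    · rw [jadd_snd, coeff_add, hx2 i hi, hy2 i hi, add_zero]
    · rw [jadd_fst, coeff_add, map_add, hx3, hy3, add_zero]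
  zero_mem' := by
    refine ⟨fun i _ => ?_, fun i _ => ?_, ?_⟩
    · rw [jzero_fst, coeff_zero]
    · rw [jzero_snd, coeff_zero]
    · rw [jzero_fst, coeff_zero, map_zero]
  smul_mem' := by
    rintro t x ⟨hx1, hx2, hx3⟩
    refine ⟨fun i hi => ?_, fun i hi => ?_, ?_⟩
    · rw [jsmul_fst, coeff_smul, hx1 i hi, smul_zero]
    · rw [jsmul_snd, coeff_smul, hx2 i hi, smul_zero]
    · rw [jsmul_fst, coeff_smul, map_smul, hx3, smul_zero]

theorem mem_LL {p : ℕ} {τ : G →ₗ[F] F} {x : Jh G} : x ∈ LL p τ ↔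
    (∀ i < p, x.1.coeff i = 0) ∧ (∀ i < p, x.2.coeff i = 0) ∧ τ (x.1.coeff p) = 0 := Iff.rfl

theorem LL_mul {p : ℕ} [CharP F p] {τ : G →ₗ[F] F} {x y : Jh G}
    (hx : x.1.coeff 0 = 0) (hy : y ∈ LL p τ) : x * y ∈ LL p τ := by
  obtain ⟨hy1, hy2, hy3⟩ := hy
  have hl : Lead p y (y.1.coeff p) (y.2.coeff p) := ⟨hy1, hy2, rfl, rfl⟩
  have hl' : Lead 0 x 0 (x.2.coeff 0) := ⟨by simp, by simp, hx, rfl⟩
  have h := hl'.mul hl
  rw [zero_add] at h
  refine ⟨h.lo1, h.lo2, ?_⟩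
  rw [h.at1]
  have hp : ∀ g : G, p • g = 0 := fun g => by
    rw [← Nat.cast_smul_eq_nsmul F, CharP.cast_eq_zero, zero_smul]
  rw [hp]
  simp

/-- the ideal inside `BB` -/
noncomputable def LB (H : SC E O) (W : Submodule F G) (p : ℕ) (τ : G →ₗ[F] F) : Submodule F (BB H W) :=
  (LL p τ).comap (BB H W).toSubmodule.subtype

theorem mem_LB {H : SC E O} {W : Submodule F G} {p : ℕ} {τ : G →ₗ[F] F} {x : BB H W} :
    x ∈ LB H W p τ ↔ (x : Jh G) ∈ LL p τ := Iff.rfl

theorem LB_abs (H : SC E O) (W : Submodule F G) (p : ℕ) [CharP F p] (τ : G →ₗ[F] F) :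
    IsAbs (LB H W p τ) where
  left a l hl := by
    rw [mem_LB] at hl ⊢
    exact LL_mul a.2.2.1 hl
  right a l hl := by
    rw [mem_LB] at hl ⊢
    have : ((l * a : BB H W) : Jh G) = (a : Jh G) * (l : Jh G) :=
      par_comm H l.2.1 a.2.1
    rw [this]
    exact LL_mul a.2.2.1 hl

/-- the algebra `KK` -/
abbrev KK (H : SC E O) (W : Submodule F G) (p : ℕ) [CharP F p] (τ : G →ₗ[F] F) :=
  QAlg (LB H W p τ) (LB_abs H W p τ)

variable (H : SC E O) (W : Submodule F G) (p : ℕ) [CharP F p] (τ : G →ₗ[F] F)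

theorem KK_comm (x y : KK H W p τ) : x * y = y * x := by
  obtain ⟨a, rfl⟩ := qmk_surj _ x
  obtain ⟨b, rfl⟩ := qmk_surj _ y
  rw [← qmk_mul, ← qmk_mul]
  congr 1
  exact Subtype.ext (par_comm H a.2.1 b.2.1)

theorem KK_jordan (x y : KK H W p τ) : ((x * x) * y) * x = (x * x) * (y * x) := by
  obtain ⟨a, rfl⟩ := qmk_surj _ x
  obtain ⟨b, rfl⟩ := qmk_surj _ y
  simp only [← qmk_mul]
  congr 1
  exact Subtype.ext (par_identities H a.2.1 b.2.1).1

theorem KK_alt (h3 : (3 : F) = 0) (x y : KK H W p τ) : (x * x) * y = x * (x * y) := by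
  obtain ⟨a, rfl⟩ := qmk_surj _ x
  obtain ⟨b, rfl⟩ := qmk_surj _ y
  simp only [← qmk_mul]
  congr 1
  exact Subtype.ext ((par_identities H a.2.1 b.2.1).2 h3)

/-- vanishing below level `r` -/
def Low (r : ℕ) (x : Jh G) : Prop := (∀ i < r, x.1.coeff i = 0) ∧ (∀ i < r, x.2.coeff i = 0)

omit [CharP F p] in
theorem low_sword (k : ℕ) : ∀ x : ℕ → Jh G, (∀ i, x i ∈ BB H W) →
    sword k x ∈ BB H W ∧ Low (2 ^ k / 2) (sword k x) := by
  induction k with
  | zero => exact fun x hx => ⟨hx 0, by simp [Low]⟩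
  | succ k ih =>
    intro x hx
    obtain ⟨m1, l1⟩ := ih (fun i => x (2 * i)) (fun i => hx _)
    obtain ⟨m2, l2⟩ := ih (fun i => x (2 * i + 1)) (fun i => hx _)
    refine ⟨(BB H W).mul_mem m1 m2, ?_⟩
    rw [sword]
    rcases Nat.eq_zero_or_pos k with rfl | hk
    · have := lead_two m1.2.1 m2.2.1
      have e : 2 ^ (0 + 1) / 2 = 1 := rfl
      rw [e]
      exact ⟨this.lo1, this.lo2⟩
    · have e : 2 ^ (k + 1) / 2 = 2 ^ k / 2 + 2 ^ k / 2 := by
        have : 2 ^ k = 2 * 2 ^ (k - 1) := by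
          rw [← pow_succ']
          congr 1
          omega
        rw [pow_succ, this]
        omega
      rw [e]
      have a1 : Lead (2 ^ k / 2) (sword k fun i => x (2 * i)) _ _ := ⟨l1.1, l1.2, rfl, rfl⟩
      have a2 : Lead (2 ^ k / 2) (sword k fun i => x (2 * i + 1)) _ _ := ⟨l2.1, l2.2, rfl, rfl⟩
      have a3 := a1.mul a2
      exact ⟨a3.lo1, a3.lo2⟩

theorem coe_sword (k : ℕ) (x : ℕ → BB H W) :
    ((sword k x : BB H W) : Jh G) = sword k (fun i => (x i : Jh G)) :=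
  map_sword (fun z : BB H W => (z : Jh G)) (fun _ _ => rfl) k x

theorem coe_vword (p n : ℕ) (u : BB H W) (x : ℕ → BB H W) :
    ((vword p n u x : BB H W) : Jh G) = vword p n (u : Jh G) (fun i => (x i : Jh G)) :=
  map_vword (fun z : BB H W => (z : Jh G)) (fun _ _ => rfl) p n u x

theorem KK_sword {s : ℕ} (hs : p < 2 ^ s) (x : ℕ → KK H W p τ) : sword (s + 1) x = 0 := by
  choose a ha using fun i => qmk_surj (LB_abs H W p τ) (x i)
  have e : x = fun i => qmk (LB_abs H W p τ) (a i) := by funext i; rw [ha]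
  rw [e, ← map_sword (qmk (LB_abs H W p τ)) (qmk_mul _), qmk_eq_zero, mem_LB, coe_sword]
  obtain ⟨-, l1, l2⟩ := low_sword H W (s + 1) (fun i => (a i : Jh G)) (fun i => (a i).2)
  have e2 : 2 ^ (s + 1) / 2 = 2 ^ s := by rw [pow_succ]; omega
  rw [e2] at l1 l2
  refine ⟨fun i hi => l1 i (by omega), fun i hi => l2 i (by omega), ?_⟩
  rw [l1 p hs, map_zero]

/-- `V` vanishes on `KK` when all products of letters have zero image under `τ` -/
theorem KK_vword (hp : 1 ≤ p) (n : ℕ)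
    (hE : ∀ g ∈ E, ∃ s : F, g ^ p = algebraMap F G s)
    (h0 : ∀ z : ℕ → G, (∀ i, z i ∈ W) → τ (pr z (2 * n + 2 * p)) = 0)
    (u : KK H W p τ) (x : ℕ → KK H W p τ) : vword p n u x = 0 := by
  choose a ha using fun i => qmk_surj (LB_abs H W p τ) (x i)
  obtain ⟨b, rfl⟩ := qmk_surj (LB_abs H W p τ) u
  have e : x = fun i => qmk (LB_abs H W p τ) (a i) := by funext i; rw [ha]
  rw [e, ← map_vword (qmk (LB_abs H W p τ)) (qmk_mul _), qmk_eq_zero, mem_LB, coe_vword]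
  obtain ⟨Θ, hΘ, h1, h2, h3⟩ := lead_vword H b.2.1 b.2.2.1 (x := fun i => (a i : Jh G))
    (fun i => (a i).2.1) (fun i => (a i).2.2.1) hp n
  refine ⟨h1, h2, ?_⟩
  rw [h3]
  obtain ⟨s, hs⟩ := hE _ (b.2.1.fst 1)
  rw [hs, ← Algebra.smul_def, map_smul]
  have hz := h0 (lett n (fun i => (a i : Jh G).2.coeff 0) ((b : Jh G).2.coeff 0)) (by
    intro i
    unfold lett
    split_ifs
    · exact (a i).2.2.2
    · exact b.2.2.2
    · exact (a (i - 1)).2.2.2)
  rcases hΘ with hΘ | hΘ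
  · rw [hΘ, hz, smul_zero]
  · rw [hΘ, map_neg, hz, neg_zero, smul_zero]

/-- `V` does not vanish on `KK` when some product of letters has nonzero image under `τ` -/
theorem KK_vword_ne (hWO : W ≤ O) (hp : 1 ≤ p) (n : ℕ)
    (z : ℕ → G) (hz : ∀ i, z i ∈ W) (h1 : τ (pr z (2 * n + 2 * p)) ≠ 0) :
    ∃ (u : KK H W p τ) (x : ℕ → KK H W p τ), vword p n u x ≠ 0 := by
  classical
  -- the elements
  let u : Jh G := (X, C (z (2 * n + 1)))
  let x : ℕ → Jh G := fun i => (0, C (if i < 2 * n + 1 then z i else z (i + 1)))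
  have hu : u ∈ BB H W := by
    refine ⟨⟨fun m => ?_, fun m => ?_⟩, ?_, ?_⟩
    · change (X : G[X]).coeff m ∈ E
      rw [coeff_X]
      split_ifs
      · exact H.one
      · exact E.zero_mem
    · change (C (z (2 * n + 1)) : G[X]).coeff m ∈ O
      rw [coeff_C]
      split_ifs
      · exact hWO (hz _)
      · exact O.zero_mem
    · change (X : G[X]).coeff 0 = 0
      simp
    · change (C (z (2 * n + 1)) : G[X]).coeff 0 ∈ W
      rw [coeff_C_zero]
      exact hz _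
  have hx : ∀ i, x i ∈ BB H W := by
    intro i
    have hzi : (if i < 2 * n + 1 then z i else z (i + 1)) ∈ W := by
      split_ifs
      · exact hz _
      · exact hz _
    refine ⟨⟨fun m => ?_, fun m => ?_⟩, ?_, ?_⟩
    · change (0 : G[X]).coeff m ∈ E
      rw [coeff_zero]; exact E.zero_mem
    · change (C (if i < 2 * n + 1 then z i else z (i + 1)) : G[X]).coeff m ∈ O
      rw [coeff_C]
      split_ifs with h h'
      · exact hWO (hz _)
      · exact hWO (hz _)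
      · exact O.zero_mem
    · change (0 : G[X]).coeff 0 = 0
      simp
    · change (C (if i < 2 * n + 1 then z i else z (i + 1)) : G[X]).coeff 0 ∈ W
      rw [coeff_C_zero]; exact hzi
  refine ⟨qmk _ ⟨u, hu⟩, fun i => qmk _ ⟨x i, hx i⟩, ?_⟩
  rw [← map_vword (qmk (LB_abs H W p τ)) (qmk_mul _), Ne, qmk_eq_zero, mem_LB, coe_vword]
  intro hmem
  obtain ⟨Θ, hΘ, -, -, h3⟩ := lead_vword H hu.1 hu.2.1 (x := x)
    (fun i => (hx i).1) (fun i => (hx i).2.1) hp n
  have h4 := hmem.2.2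
  change τ ((vword p n u x).1.coeff p) = 0 at h4
  rw [h3] at h4
  have e1 : u.1.coeff 1 = 1 := by
    change (X : G[X]).coeff 1 = 1
    simp
  rw [e1, one_pow, one_mul] at h4
  have e2 : pr (lett n (fun i => (x i).2.coeff 0) (u.2.coeff 0)) (2 * n + 2 * p) =
      pr z (2 * n + 2 * p) := by
    apply pr_congr
    intro i hi
    unfold lett
    split_ifs with ha hb
    · change (C (if i < 2 * n + 1 then z i else z (i + 1)) : G[X]).coeff 0 = z i
      rw [coeff_C_zero, if_pos ha]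
    · change (C (z (2 * n + 1)) : G[X]).coeff 0 = z i
      rw [coeff_C_zero, hb]
    · change (C (if i - 1 < 2 * n + 1 then z (i - 1) else z (i - 1 + 1)) : G[X]).coeff 0 = z i
      rw [coeff_C_zero, if_neg (by omega)]
      congr 1
      omega
  rw [e2] at hΘ
  apply h1
  rcases hΘ with hΘ | hΘ
  · rw [← hΘ]; exact h4
  · rw [hΘ, map_neg, neg_eq_zero] at h4; exact h4

end

end Pool.Agent.Lib.MP_a43909_al.SJ
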