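import Mathlib

/-!
# Varieties of nonassociative algebras

Definitions used in the statements: identities, satisfaction, varieties, finite bases, Jordan and
alternative algebras, the derived series.
-/

set_option autoImplicit false

namespace Pool.Agent.Lib.MP_a43909_al.SJ

universe u

/-- The free nonassociative algebra over `F` on the variables `x₀, x₁, …`. Its elements are the
nonassociative polynomials, that is, the (left-hand sides of) identities. -/
abbrev NPoly (F : Type u) [Field F] : Type u := FreeNonUnitalNonAssocAlgebra F ℕ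

/-- The algebra `A` satisfies the identity `f = 0`: every substitution of elements of `A` for the
variables of `f` gives `0`. -/
def Satisfies (F : Type u) [Field F] (A : Type u) [NonUnitalNonAssocRing A] [Module F A]
    [IsScalarTower F A A] [SMulCommClass F A A] (f : NPoly F) : Prop :=
  ∀ φ : ℕ → A, FreeNonUnitalNonAssocAlgebra.lift F φ f = 0

/-- `A` lies in the variety defined by the set `S` of identities. -/
def InVariety (F : Type u) [Field F] (S : Set (NPoly F)) (A : Type u) [NonUnitalNonAssocRing A]
    [Module F A] [IsScalarTower F A A] [SMulCommClass F A A] : Prop :=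
  ∀ f ∈ S, Satisfies F A f

/-- The variety defined by `S` is finitely based: it is defined by some finite set of
identities. -/
def FinitelyBased (F : Type u) [Field F] (S : Set (NPoly F)) : Prop :=
  ∃ T : Set (NPoly F), T.Finite ∧
    ∀ (A : Type u) [NonUnitalNonAssocRing A] [Module F A] [IsScalarTower F A A]
      [SMulCommClass F A A], InVariety F T A ↔ InVariety F S A

/-- `A` is a Jordan algebra: `x y = y x` and `(x² y) x = x² (y x)`. -/
def IsJordanAlgebra (A : Type u) [NonUnitalNonAssocRing A] : Prop :=
  (∀ x y : A, x * y = y * x) ∧ ∀ x y : A, ((x * x) * y) * x = (x * x) * (y * x)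

/-- `A` is alternative: `(x, x, y) = (y, x, x) = 0`, where `(x, y, z) = (x y) z - x (y z)`. -/
def IsAlternativeAlgebra (A : Type u) [NonUnitalNonAssocRing A] : Prop :=
  ∀ x y : A, (x * x) * y - x * (x * y) = 0 ∧ (y * x) * x - y * (x * x) = 0

/-- The derived series `A⁽⁰⁾ = A`, `A⁽ᵏ⁺¹⁾ = A⁽ᵏ⁾ A⁽ᵏ⁾` (linear span of the products). -/
def derivedAlg (F : Type u) [Field F] (A : Type u) [NonUnitalNonAssocRing A] [Module F A] :
    ℕ → Submodule F A
  | 0 => ⊤
  | k + 1 => Submodule.span F {z | ∃ x ∈ derivedAlg F A k, ∃ y ∈ derivedAlg F A k, z = x * y}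

/-- `A` is solvable of index at most `n`: `A⁽ⁿ⁾ = 0`. -/
def SolvableOfIndex (F : Type u) [Field F] (A : Type u) [NonUnitalNonAssocRing A] [Module F A]
    (n : ℕ) : Prop :=
  derivedAlg F A n = ⊥

end Pool.Agent.Lib.MP_a43909_al.SJ
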