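import Mathlib

/-!
# Facts about the exterior algebra

Even elements are central, odd elements anticommute and have square zero, `p`-th powers of even
elements are scalars in characteristic `p`, and the coefficient of the top form.
-/

set_option autoImplicit false

namespace Pool.Agent.Lib.MP_a43909_al.SJ

open ExteriorAlgebra

section

variable {F : Type*} [Field F] {V : Type*} [AddCommGroup V] [Module F V]

/-- the even part of the exterior algebra -/
abbrev Ev (F : Type*) [Field F] (V : Type*) [AddCommGroup V] [Module F V] :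
    Submodule F (ExteriorAlgebra F V) :=
  CliffordAlgebra.evenOdd (0 : QuadraticForm F V) 0

/-- the odd part of the exterior algebra -/
abbrev Od (F : Type*) [Field F] (V : Type*) [AddCommGroup V] [Module F V] :
    Submodule F (ExteriorAlgebra F V) :=
  CliffordAlgebra.evenOdd (0 : QuadraticForm F V) 1

theorem iota_swap (v w : V) : ι F v * ι F w = -(ι F w * ι F v) :=
  eq_neg_of_add_eq_zero_left (ι_add_mul_swap v w)

theorem iota_pair_comm (v w : V) (y : ExteriorAlgebra F V) :
    ι F v * ι F w * y = y * (ι F v * ι F w) := by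
  induction y using ExteriorAlgebra.induction with
  | algebraMap r => rw [← Algebra.commutes]
  | ι u =>
    calc ι F v * ι F w * ι F u = ι F v * (ι F w * ι F u) := by rw [mul_assoc]
      _ = - (ι F v * ι F u * ι F w) := by rw [iota_swap w u]; noncomm_ring
      _ = ι F u * (ι F v * ι F w) := by rw [iota_swap v u]; noncomm_ring
  | mul a b ha hb => rw [← mul_assoc, ha, mul_assoc, hb, mul_assoc]
  | add a b ha hb => rw [mul_add, add_mul, ha, hb]

theorem ev_comm {x : ExteriorAlgebra F V} (hx : x ∈ Ev F V) (y : ExteriorAlgebra F V) :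
    x * y = y * x := by
  induction x, hx using CliffordAlgebra.even_induction with
  | algebraMap r => exact Algebra.commutes r y
  | add a b ha hb iha ihb => rw [add_mul, mul_add, iha, ihb]
  | ι_mul_ι_mul v w a ha ih =>
    have := iota_pair_comm (F := F) v w y
    rw [mul_assoc, ih, ← mul_assoc]
    erw [this]
    rw [mul_assoc]

theorem iota_anti (v : V) {y : ExteriorAlgebra F V} (hy : y ∈ Od F V) :
    ι F v * y = -(y * ι F v) := by
  induction y, hy using CliffordAlgebra.odd_induction with
  | ι w => exact iota_swap v w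
  | add a b ha hb iha ihb => rw [add_mul, mul_add, iha, ihb]; abel
  | ι_mul_ι_mul u w a ha ih =>
    have h1 := iota_pair_comm (F := F) u w (ι F v)
    change ι F v * (ι F u * ι F w * a) = -(ι F u * ι F w * a * ι F v)
    rw [← mul_assoc, ← h1, mul_assoc, ih]
    noncomm_ring

theorem od_anti {x y : ExteriorAlgebra F V} (hx : x ∈ Od F V) (hy : y ∈ Od F V) :
    x * y = -(y * x) := by
  induction x, hx using CliffordAlgebra.odd_induction with
  | ι w => exact iota_anti w hy
  | add a b ha hb iha ihb => rw [add_mul, mul_add, iha, ihb]; abel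
  | ι_mul_ι_mul u w a ha ih =>
    have h1 := iota_pair_comm (F := F) u w y
    change ι F u * ι F w * a * y = -(y * (ι F u * ι F w * a))
    rw [mul_assoc, ih, mul_neg, ← mul_assoc, h1, mul_assoc]

theorem od_sq {x : ExteriorAlgebra F V} (hx : x ∈ Od F V) : x * x = 0 := by
  induction x, hx using CliffordAlgebra.odd_induction with
  | ι w => exact ι_sq_zero w
  | add a b ha hb iha ihb =>
    have h := od_anti ha hb
    rw [add_mul, mul_add, mul_add, iha, ihb, h]; abel
  | ι_mul_ι_mul u w a ha ih =>
    change ι F u * ι F w * a * (ι F u * ι F w * a) = 0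
    have h1 := iota_pair_comm (F := F) u w a
    calc ι F u * ι F w * a * (ι F u * ι F w * a)
        = ι F u * ι F w * (a * (ι F u * ι F w)) * a := by noncomm_ring
      _ = ι F u * ι F w * (ι F u * ι F w * a) * a := by rw [h1]
      _ = ι F u * ι F w * (ι F u * ι F w) * (a * a) := by noncomm_ring
      _ = 0 := by rw [ih, mul_zero]

theorem pair_pow {p : ℕ} (hp : 2 ≤ p) (v w : V) : (ι F v * ι F w) ^ p = 0 := by
  obtain ⟨k, rfl⟩ := Nat.exists_eq_add_of_le hp
  rw [pow_add, pow_two]
  have : ι F v * ι F w * (ι F v * ι F w) = 0 := by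
    have h := iota_swap (F := F) w v
    calc ι F v * ι F w * (ι F v * ι F w) = ι F v * (ι F w * ι F v) * ι F w := by noncomm_ring
      _ = - (ι F v * ι F v * (ι F w * ι F w)) := by rw [h]; noncomm_ring
      _ = 0 := by rw [ι_sq_zero]; simp
  rw [this, zero_mul]

theorem ev_pow {p : ℕ} [hp : Fact p.Prime] [CharP F p] {x : ExteriorAlgebra F V}
    (hx : x ∈ Ev F V) : ∃ s : F, x ^ p = algebraMap F _ s := by
  haveI : CharP (ExteriorAlgebra F V) p :=
    charP_of_injective_algebraMap (algebraMap_leftInverse V).injective p
  induction x, hx using CliffordAlgebra.even_induction with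
  | algebraMap r => exact ⟨r ^ p, by rw [map_pow]⟩
  | add a b ha hb iha ihb =>
    obtain ⟨s, hs⟩ := iha
    obtain ⟨t, ht⟩ := ihb
    refine ⟨s + t, ?_⟩
    rw [add_pow_char_of_commute p (ev_comm ha b), hs, ht, map_add]
  | ι_mul_ι_mul u w a ha ih =>
    refine ⟨0, ?_⟩
    change (ι F u * ι F w * a) ^ p = _
    have h1 : Commute (ι F u * ι F w) a := iota_pair_comm u w a
    rw [h1.mul_pow, pair_pow hp.out.two_le, zero_mul, map_zero]

end

end Pool.Agent.Lib.MP_a43909_al.SJ
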