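import Mathlib

/-!
# Quotients of nonassociative algebras by ideals, and evaluation of identities
-/

set_option autoImplicit false

namespace Pool.Agent.Lib.MP_a43909_al.SJ

universe u

section

variable {F A : Type*} [Field F] [NonUnitalNonAssocRing A] [Module F A]

/-- two-sided ideals -/
structure IsAbs (L : Submodule F A) : Prop where
  left : ∀ a : A, ∀ l ∈ L, a * l ∈ L
  right : ∀ a : A, ∀ l ∈ L, l * a ∈ L

/-- the quotient algebra -/
def QAlg (L : Submodule F A) (_ : IsAbs L) : Type _ := A ⧸ L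

variable {L : Submodule F A} (hL : IsAbs L)

instance : AddCommGroup (QAlg L hL) := inferInstanceAs (AddCommGroup (A ⧸ L))

instance : Module F (QAlg L hL) := inferInstanceAs (Module F (A ⧸ L))

/-- the class of an element -/
def qmk (a : A) : QAlg L hL := (Submodule.Quotient.mk a : A ⧸ L)

theorem qmk_eq {a b : A} : qmk hL a = qmk hL b ↔ a - b ∈ L :=
  Submodule.Quotient.eq L

theorem qmk_surj (x : QAlg L hL) : ∃ a, qmk hL a = x :=
  Submodule.Quotient.mk_surjective L x

theorem qmk_add (a b : A) : qmk hL (a + b) = qmk hL a + qmk hL b := rfl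

theorem qmk_zero : qmk hL (0 : A) = 0 := rfl

theorem qmk_smul (t : F) (a : A) : qmk hL (t • a) = t • qmk hL a := rfl

theorem qmk_eq_zero {a : A} : qmk hL a = 0 ↔ a ∈ L := by
  rw [← qmk_zero, qmk_eq, sub_zero]

noncomputable instance : Mul (QAlg L hL) :=
  ⟨fun x y => qmk hL ((qmk_surj hL x).choose * (qmk_surj hL y).choose)⟩

theorem qmk_mul (a b : A) : qmk hL (a * b) = qmk hL a * qmk hL b := by
  change qmk hL (a * b) = qmk hL ((qmk_surj hL (qmk hL a)).choose *
    (qmk_surj hL (qmk hL b)).choose)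
  have h1 := (qmk_eq hL).mp (qmk_surj hL (qmk hL a)).choose_spec
  have h2 := (qmk_eq hL).mp (qmk_surj hL (qmk hL b)).choose_spec
  set a' := (qmk_surj hL (qmk hL a)).choose
  set b' := (qmk_surj hL (qmk hL b)).choose
  rw [qmk_eq]
  have : a * b - a' * b' = -((a' - a) * b) + -(a' * (b' - b)) := by
    rw [sub_mul, mul_sub]; abel
  rw [this]
  exact L.add_mem (L.neg_mem (hL.right _ _ h1)) (L.neg_mem (hL.left _ _ h2))

noncomputable instance : NonUnitalNonAssocRing (QAlg L hL) where
  left_distrib x y z := by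
    obtain ⟨a, rfl⟩ := qmk_surj hL x
    obtain ⟨b, rfl⟩ := qmk_surj hL y
    obtain ⟨c, rfl⟩ := qmk_surj hL z
    rw [← qmk_add, ← qmk_mul, ← qmk_mul, ← qmk_mul, ← qmk_add, mul_add]
  right_distrib x y z := by
    obtain ⟨a, rfl⟩ := qmk_surj hL x
    obtain ⟨b, rfl⟩ := qmk_surj hL y
    obtain ⟨c, rfl⟩ := qmk_surj hL z
    rw [← qmk_add, ← qmk_mul, ← qmk_mul, ← qmk_mul, ← qmk_add, add_mul]
  zero_mul x := by
    obtain ⟨a, rfl⟩ := qmk_surj hL x
    rw [← qmk_zero, ← qmk_mul, zero_mul]
  mul_zero x := by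
    obtain ⟨a, rfl⟩ := qmk_surj hL x
    rw [← qmk_zero, ← qmk_mul, mul_zero]

instance [IsScalarTower F A A] : IsScalarTower F (QAlg L hL) (QAlg L hL) where
  smul_assoc t x y := by
    obtain ⟨a, rfl⟩ := qmk_surj hL x
    obtain ⟨b, rfl⟩ := qmk_surj hL y
    simp only [smul_eq_mul]
    rw [← qmk_smul, ← qmk_mul, ← qmk_mul, ← qmk_smul, smul_mul_assoc]

instance [SMulCommClass F A A] : SMulCommClass F (QAlg L hL) (QAlg L hL) where
  smul_comm t x y := by
    obtain ⟨a, rfl⟩ := qmk_surj hL x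
    obtain ⟨b, rfl⟩ := qmk_surj hL y
    simp only [smul_eq_mul]
    rw [← qmk_smul, ← qmk_mul, ← qmk_mul, ← qmk_smul, mul_smul_comm]

/-- the projection as a homomorphism -/
noncomputable def qhom : A →ₙₐ[F] QAlg L hL where
  toFun := qmk hL
  map_smul' := qmk_smul hL
  map_zero' := qmk_zero hL
  map_add' := qmk_add hL
  map_mul' := qmk_mul hL

theorem qhom_apply (a : A) : qhom hL a = qmk hL a := rfl

end

section

variable {F : Type*} [Field F] {A B : Type*} [NonUnitalNonAssocRing A] [Module F A]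
  [IsScalarTower F A A] [SMulCommClass F A A] [NonUnitalNonAssocRing B] [Module F B]
  [IsScalarTower F B B] [SMulCommClass F B B]

theorem hom_lift (g : A →ₙₐ[F] B) (φ : ℕ → A) (f : FreeNonUnitalNonAssocAlgebra F ℕ) :
    g (FreeNonUnitalNonAssocAlgebra.lift F φ f) =
      FreeNonUnitalNonAssocAlgebra.lift F (fun n => g (φ n)) f := by
  have : g.comp (FreeNonUnitalNonAssocAlgebra.lift F φ) =
      FreeNonUnitalNonAssocAlgebra.lift F (fun n => g (φ n)) := by
    apply FreeNonUnitalNonAssocAlgebra.hom_ext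
    intro x
    simp
  rw [← this]
  rfl

end

/-- an upper bound for the variables of a word -/
def wbound : FreeMagma ℕ → ℕ
  | FreeMagma.of n => n + 1
  | FreeMagma.mul x y => max (wbound x) (wbound y)

theorem word_lift_congr {F : Type*} [Field F] (w : FreeMagma ℕ) :
    ∀ (A : Type*) [NonUnitalNonAssocRing A] [Module F A] [IsScalarTower F A A]
      [SMulCommClass F A A] (φ ψ : ℕ → A), (∀ i < wbound w, φ i = ψ i) →
      FreeNonUnitalNonAssocAlgebra.lift F φ (MonoidAlgebra.single w 1) =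
        FreeNonUnitalNonAssocAlgebra.lift F ψ (MonoidAlgebra.single w 1) := by
  induction w using FreeMagma.recOnMul with
  | ih1 n =>
    intro A _ _ _ _ φ ψ h
    change FreeNonUnitalNonAssocAlgebra.lift F φ (FreeNonUnitalNonAssocAlgebra.of F n) =
      FreeNonUnitalNonAssocAlgebra.lift F ψ (FreeNonUnitalNonAssocAlgebra.of F n)
    rw [FreeNonUnitalNonAssocAlgebra.lift_of_apply, FreeNonUnitalNonAssocAlgebra.lift_of_apply]
    exact h n (Nat.lt_succ_self n)
  | ih2 x y hx hy =>
    intro A _ _ _ _ φ ψ h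
    have e : (MonoidAlgebra.single (x * y) (1 : F)) =
        MonoidAlgebra.single x 1 * MonoidAlgebra.single y 1 := by
      rw [MonoidAlgebra.single_mul_single, mul_one]
    rw [e, map_mul, map_mul, hx A φ ψ (fun i hi => h i (lt_of_lt_of_le hi (le_max_left _ _))),
      hy A φ ψ (fun i hi => h i (lt_of_lt_of_le hi (le_max_right _ _)))]

theorem lift_congr_aux {F : Type u} [Field F] (f : FreeNonUnitalNonAssocAlgebra F ℕ) :
    ∃ k : ℕ, ∀ (A : Type u) [NonUnitalNonAssocRing A] [Module F A] [IsScalarTower F A A]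
      [SMulCommClass F A A] (φ ψ : ℕ → A), (∀ i < k, φ i = ψ i) →
      FreeNonUnitalNonAssocAlgebra.lift F φ f = FreeNonUnitalNonAssocAlgebra.lift F ψ f := by
  induction f using MonoidAlgebra.induction_linear with
  | zero => exact ⟨0, fun A _ _ _ _ φ ψ _ => by rw [map_zero, map_zero]⟩
  | add f g hf hg =>
    obtain ⟨k, hk⟩ := hf
    obtain ⟨l, hl⟩ := hg
    refine ⟨max k l, fun A _ _ _ _ φ ψ h => ?_⟩
    rw [map_add, map_add, hk A φ ψ (fun i hi => h i (lt_of_lt_of_le hi (le_max_left _ _))),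
      hl A φ ψ (fun i hi => h i (lt_of_lt_of_le hi (le_max_right _ _)))]
  | single w r =>
    refine ⟨wbound w, fun A _ _ _ _ φ ψ h => ?_⟩
    have e : (MonoidAlgebra.single w r : FreeNonUnitalNonAssocAlgebra F ℕ) =
        r • MonoidAlgebra.single w 1 := by
      rw [MonoidAlgebra.smul_single, smul_eq_mul, mul_one]
    rw [e, map_smul, map_smul, word_lift_congr w A φ ψ h]

/-- a bound for the variables of finitely many identities -/
theorem lift_congr_finite {F : Type u} [Field F] (T : Set (FreeNonUnitalNonAssocAlgebra F ℕ))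
    (hT : T.Finite) :
    ∃ k : ℕ, ∀ f ∈ T, ∀ (A : Type u) [NonUnitalNonAssocRing A] [Module F A]
      [IsScalarTower F A A] [SMulCommClass F A A] (φ ψ : ℕ → A), (∀ i < k, φ i = ψ i) →
      FreeNonUnitalNonAssocAlgebra.lift F φ f = FreeNonUnitalNonAssocAlgebra.lift F ψ f := by
  classical
  choose k hk using fun f : FreeNonUnitalNonAssocAlgebra F ℕ => lift_congr_aux.{u} f
  refine ⟨hT.toFinset.sup k, fun f hf A _ _ _ _ φ ψ h => ?_⟩
  exact hk f A φ ψ fun i hi => h i (lt_of_lt_of_le hi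
    (Finset.le_sup (f := k) (hT.mem_toFinset.mpr hf)))

end Pool.Agent.Lib.MP_a43909_al.SJ
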