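import Pool.Agent.Lib.MP_a43909_al.SJ.Defs
import Pool.Agent.Lib.MP_a43909_al.SJ.Quot

/-!
# The identities
-/

set_option autoImplicit false

namespace Pool.Agent.Lib.MP_a43909_al.SJ

universe u

/-! ### words in an arbitrary magma -/

section words

variable {A B : Type*} [Mul A] [Mul B]

/-- the left-normed product `(…((u x₀) x₁) …) xₙ₋₁` -/
def lword (u : A) (x : ℕ → A) : ℕ → A
  | 0 => u
  | n + 1 => lword u x n * x n

/-- `(…(z ((u x₀) x₁)) …)((u x₂ⱼ₋₂) x₂ⱼ₋₁)` -/
def tword (z u : A) (x : ℕ → A) : ℕ → A
  | 0 => z
  | j + 1 => tword z u x j * ((u * x (2 * j)) * x (2 * j + 1))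

/-- the word `V`: start with `((u x₀) … x₂ₙ) u` and multiply by `(u x₂ₙ₊₁) x₂ₙ₊₂`,
`(u x₂ₙ₊₃) x₂ₙ₊₄`, …, `p - 1` factors in all -/
def vword (p n : ℕ) (u : A) (x : ℕ → A) : A :=
  tword (lword u x (2 * n + 1) * u) u (fun i => x (2 * n + 1 + i)) (p - 1)

/-- the solvability words: `x₀`, then the product of two copies in disjoint variables -/
def sword : ℕ → (ℕ → A) → A
  | 0, x => x 0
  | k + 1, x => sword k (fun i => x (2 * i)) * sword k (fun i => x (2 * i + 1))

theorem map_lword (g : A → B) (hg : ∀ a b, g (a * b) = g a * g b) (u : A) (x : ℕ → A) (n : ℕ) :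
    g (lword u x n) = lword (g u) (fun i => g (x i)) n := by
  induction n with
  | zero => rfl
  | succ n ih => rw [lword, hg, ih]; rfl

theorem map_tword (g : A → B) (hg : ∀ a b, g (a * b) = g a * g b) (z u : A) (x : ℕ → A)
    (n : ℕ) : g (tword z u x n) = tword (g z) (g u) (fun i => g (x i)) n := by
  induction n with
  | zero => rfl
  | succ n ih => rw [tword, hg, ih, hg, hg]; rfl

theorem map_vword (g : A → B) (hg : ∀ a b, g (a * b) = g a * g b) (p n : ℕ) (u : A)
    (x : ℕ → A) : g (vword p n u x) = vword p n (g u) (fun i => g (x i)) := by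
  unfold vword
  rw [map_tword g hg, hg, map_lword g hg]

theorem map_sword (g : A → B) (hg : ∀ a b, g (a * b) = g a * g b) (k : ℕ) :
    ∀ (x : ℕ → A), g (sword k x) = sword k (fun i => g (x i)) := by
  induction k with
  | zero => intro x; rfl
  | succ k ih => intro x; rw [sword, hg, ih, ih]; rfl

end words

/-! ### the polynomials -/

section polys

variable (F : Type u) [Field F]

/-- the variable `xᵢ` -/
noncomputable def nvar (i : ℕ) : NPoly F := FreeNonUnitalNonAssocAlgebra.of F i

/-- `x₀ x₁ - x₁ x₀` -/
noncomputable def commPoly : NPoly F := nvar F 0 * nvar F 1 - nvar F 1 * nvar F 0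

/-- `((x₀ x₀) x₁) x₀ - (x₀ x₀) (x₁ x₀)` -/
noncomputable def jordanPoly : NPoly F :=
  ((nvar F 0 * nvar F 0) * nvar F 1) * nvar F 0 - (nvar F 0 * nvar F 0) * (nvar F 1 * nvar F 0)

/-- `(x₀ x₀) x₁ - x₀ (x₀ x₁)` -/
noncomputable def lAltPoly : NPoly F :=
  (nvar F 0 * nvar F 0) * nvar F 1 - nvar F 0 * (nvar F 0 * nvar F 1)

/-- `(x₁ x₀) x₀ - x₁ (x₀ x₀)` -/
noncomputable def rAltPoly : NPoly F :=
  (nvar F 1 * nvar F 0) * nvar F 0 - nvar F 1 * (nvar F 0 * nvar F 0)

/-- the solvability polynomial -/
noncomputable def solvPoly (k : ℕ) : NPoly F := sword k (nvar F)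

/-- the polynomial `V` -/
noncomputable def vPoly (p n : ℕ) : NPoly F := vword p n (nvar F 0) (fun i => nvar F (i + 1))

variable (A : Type u) [NonUnitalNonAssocRing A] [Module F A] [IsScalarTower F A A]
  [SMulCommClass F A A]

theorem lift_nvar (φ : ℕ → A) (i : ℕ) :
    FreeNonUnitalNonAssocAlgebra.lift F φ (nvar F i) = φ i :=
  FreeNonUnitalNonAssocAlgebra.lift_of_apply F φ i

theorem satisfies_comm : Satisfies F A (commPoly F) ↔ ∀ x y : A, x * y = y * x := by
  constructor
  · intro h x y
    have := h (fun i => if i = 0 then x else y)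
    simpa [commPoly, lift_nvar, sub_eq_zero] using this
  · intro h φ
    simp only [commPoly, map_sub, map_mul, lift_nvar, sub_eq_zero]
    exact h _ _

theorem satisfies_jordan : Satisfies F A (jordanPoly F) ↔
    ∀ x y : A, ((x * x) * y) * x = (x * x) * (y * x) := by
  constructor
  · intro h x y
    have := h (fun i => if i = 0 then x else y)
    simpa [jordanPoly, lift_nvar, sub_eq_zero] using this
  · intro h φ
    simp only [jordanPoly, map_sub, map_mul, lift_nvar, sub_eq_zero]
    exact h _ _

theorem satisfies_lAlt : Satisfies F A (lAltPoly F) ↔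
    ∀ x y : A, (x * x) * y - x * (x * y) = 0 := by
  constructor
  · intro h x y
    have := h (fun i => if i = 0 then x else y)
    simpa [lAltPoly, lift_nvar] using this
  · intro h φ
    simp only [lAltPoly, map_sub, map_mul, lift_nvar]
    exact h _ _

theorem satisfies_rAlt : Satisfies F A (rAltPoly F) ↔
    ∀ x y : A, (y * x) * x - y * (x * x) = 0 := by
  constructor
  · intro h x y
    have := h (fun i => if i = 0 then x else y)
    simpa [rAltPoly, lift_nvar] using this
  · intro h φ
    simp only [rAltPoly, map_sub, map_mul, lift_nvar]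
    exact h _ _

theorem satisfies_solv (k : ℕ) : Satisfies F A (solvPoly F k) ↔ ∀ x : ℕ → A, sword k x = 0 := by
  constructor
  · intro h x
    have := h x
    rw [solvPoly, map_sword _ (map_mul _)] at this
    simpa [lift_nvar] using this
  · intro h φ
    rw [solvPoly, map_sword _ (map_mul _)]
    exact h _

theorem satisfies_v (p n : ℕ) : Satisfies F A (vPoly F p n) ↔
    ∀ (u : A) (x : ℕ → A), vword p n u x = 0 := by
  constructor
  · intro h u x
    have := h (fun i => if i = 0 then u else x (i - 1))
    rw [vPoly, map_vword _ (map_mul _)] at this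
    simpa [lift_nvar] using this
  · intro h φ
    rw [vPoly, map_vword _ (map_mul _)]
    exact h _ _

/-- the derived series is spanned by the values of the solvability words -/
theorem derivedAlg_eq (k : ℕ) :
    derivedAlg F A k = Submodule.span F {z | ∃ x : ℕ → A, z = sword k x} := by
  induction k with
  | zero =>
    apply le_antisymm _ le_top
    intro z _
    exact Submodule.subset_span ⟨fun _ => z, rfl⟩
  | succ k ih =>
    apply le_antisymm
    · rw [derivedAlg]
      apply Submodule.span_le.mpr
      rintro z ⟨x, hx, y, hy, rfl⟩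
      rw [ih] at hx hy
      change x * y ∈ Submodule.span F {z | ∃ x : ℕ → A, z = sword (k + 1) x}
      induction hx using Submodule.span_induction with
      | mem a ha =>
        obtain ⟨φ, rfl⟩ := ha
        induction hy using Submodule.span_induction with
        | mem b hb =>
          obtain ⟨ψ, rfl⟩ := hb
          apply Submodule.subset_span
          refine ⟨fun i => if i % 2 = 0 then φ (i / 2) else ψ (i / 2), ?_⟩
          rw [sword]
          congr 2
          · funext i
            simp
          · funext i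
            have h1 : (2 * i + 1) % 2 = 1 := by omega
            have h2 : (2 * i + 1) / 2 = i := by omega
            simp only [h1, h2, one_ne_zero, if_false]
        | zero => rw [mul_zero]; exact Submodule.zero_mem _
        | add a b _ _ iha ihb => rw [mul_add]; exact Submodule.add_mem _ iha ihb
        | smul t a _ iha => rw [mul_smul_comm]; exact Submodule.smul_mem _ _ iha
      | zero => rw [zero_mul]; exact Submodule.zero_mem _
      | add a b _ _ iha ihb => rw [add_mul]; exact Submodule.add_mem _ iha ihb
      | smul t a _ iha => rw [smul_mul_assoc]; exact Submodule.smul_mem _ _ iha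
    · apply Submodule.span_le.mpr
      rintro z ⟨x, rfl⟩
      rw [derivedAlg]
      apply Submodule.subset_span
      refine ⟨sword k (fun i => x (2 * i)), ?_, sword k (fun i => x (2 * i + 1)), ?_, rfl⟩
      · rw [ih]; exact Submodule.subset_span ⟨_, rfl⟩
      · rw [ih]; exact Submodule.subset_span ⟨_, rfl⟩

theorem solvable_of_sword {k : ℕ} (h : ∀ x : ℕ → A, sword k x = 0) : SolvableOfIndex F A k := by
  unfold SolvableOfIndex
  rw [derivedAlg_eq, Submodule.span_eq_bot]
  rintro z ⟨x, rfl⟩
  exact h x

end polys

end Pool.Agent.Lib.MP_a43909_al.SJ
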