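import Pool.Agent.Lib.MP_a43909_al.SJ.Super

/-!
# The Jordan identity, and the alternative identity in characteristic three
-/

set_option autoImplicit false

namespace Pool.Agent.Lib.MP_a43909_al.SJ

open Polynomial

/-- computation with one central and one odd letter in each argument -/
theorem core {Z R : Type*} [CommRing Z] [Ring R] [Algebra Z R] (D : R → R)
    (hadd : ∀ x y, D (x + y) = D x + D y) (hsub : ∀ x y, D (x - y) = D x - D y)
    (hD : ∀ x y, D (x * y) = D x * y + x * D y)
    (a b a1 b1 : Z) (ha1 : D (algebraMap Z R a) = algebraMap Z R a1)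
    (hb1 : D (algebraMap Z R b) = algebraMap Z R b1)
    (c d c1 c2 d1 : R) (hc : D c = c1) (hc1 : D c1 = c2) (hd : D d = d1)
    (s1 : c * c = 0) (s2 : c1 * c1 = 0)
    (e1 : c1 * c = - (c * c1)) (e2 : d * c = - (c * d)) (e3 : d1 * c = - (c * d1))
    (e4 : d * c1 = - (c1 * d)) (e5 : c2 * c = - (c * c2))
    (m : R × R → R × R → R × R) (hm : ∀ x y, m x y =
    (x.1 * y.1 + x.2 * D y.2 - D x.2 * y.2, x.1 * y.2 + x.2 * y.1)) :
    m (m (m (algebraMap Z R a, c) (algebraMap Z R a, c)) (algebraMap Z R b, d))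
        (algebraMap Z R a, c)
     = m (m (algebraMap Z R a, c) (algebraMap Z R a, c))
        (m (algebraMap Z R b, d) (algebraMap Z R a, c)) ∧
    ((3 : Z) = 0 → m (m (algebraMap Z R a, c) (algebraMap Z R a, c)) (algebraMap Z R b, d)
      = m (algebraMap Z R a, c) (m (algebraMap Z R a, c) (algebraMap Z R b, d))) := by
  have s1' : ∀ r, c * (c * r) = 0 := fun r => by rw [← mul_assoc, s1, zero_mul]
  have s2' : ∀ r, c1 * (c1 * r) = 0 := fun r => by rw [← mul_assoc, s2, zero_mul]
  have e1' : ∀ r, c1 * (c * r) = - (c * (c1 * r)) := fun r => by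
    rw [← mul_assoc, e1, neg_mul, mul_assoc]
  have e2' : ∀ r, d * (c * r) = - (c * (d * r)) := fun r => by
    rw [← mul_assoc, e2, neg_mul, mul_assoc]
  have e3' : ∀ r, d1 * (c * r) = - (c * (d1 * r)) := fun r => by
    rw [← mul_assoc, e3, neg_mul, mul_assoc]
  have e4' : ∀ r, d * (c1 * r) = - (c1 * (d * r)) := fun r => by
    rw [← mul_assoc, e4, neg_mul, mul_assoc]
  have e5' : ∀ r, c2 * (c * r) = - (c * (c2 * r)) := fun r => by
    rw [← mul_assoc, e5, neg_mul, mul_assoc]
  have hl : ∀ (z : Z) (x : R), algebraMap Z R z * x = z • x := fun z x => by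
    rw [Algebra.smul_def]
  have hr : ∀ (z : Z) (x : R), x * algebraMap Z R z = z • x := fun z x => by
    rw [Algebra.smul_def, Algebra.commutes]
  constructor
  · simp only [hm, hadd, hsub, hD, ha1, hb1, hc, hc1, hd, Prod.mk.injEq]
    simp only [hl, hr]
    simp only [Algebra.algebraMap_eq_smul_one]
    simp only [mul_add, add_mul, mul_sub, sub_mul, smul_mul_assoc, mul_smul_comm,
      smul_add, smul_sub, smul_neg, mul_neg, neg_mul, neg_neg, one_mul, mul_one,
      mul_assoc, s1, s1', s2, s2', e1, e1', e2, e2', e3, e3', e4, e4', e5, e5', smul_zero,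
      mul_zero, zero_mul, neg_zero]
    constructor
    · module
    · module
  · intro h3
    have h3' : ∀ x : R, (3 : Z) • x = 0 := fun x => by rw [h3, zero_smul]
    simp only [hm, hadd, hsub, hD, ha1, hb1, hc, hc1, hd, Prod.mk.injEq]
    simp only [hl, hr]
    simp only [Algebra.algebraMap_eq_smul_one]
    simp only [mul_add, add_mul, mul_sub, sub_mul, smul_mul_assoc, mul_smul_comm,
      smul_add, smul_sub, smul_neg, mul_neg, neg_mul, neg_neg, one_mul, mul_one,
      mul_assoc, s1, s1', s2, s2', e1, e1', e2, e2', e3, e3', e4, e4', e5, e5', smul_zero,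
      mul_zero, zero_mul, neg_zero]
    constructor
    · have := h3' (a1 • (c * d))
      linear_combination (norm := module) (-1 : Z) • this
    · have := h3' (c * (c1 * d))
      linear_combination (norm := module) (1 : Z) • this

section

variable {F G : Type*} [Field F] [Ring G] [Algebra F G]

theorem par_identities {E O : Submodule F G} (H : SC E O) {x y : Jh G} (hx : Par E O x)
    (hy : Par E O y) :
    ((x * x) * y) * x = (x * x) * (y * x) ∧ ((3 : F) = 0 → (x * x) * y = x * (x * y)) := by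
  let _ : Algebra (Subring.center G[X]) G[X] :=
    (Subring.center G[X]).subtype.toAlgebra' fun c r => (Subring.mem_center_iff.mp c.2 r).symm
  have cen : ∀ b : G[X], Cf E b → b ∈ Subring.center G[X] := fun b hb =>
    Subring.mem_center_iff.mpr fun r => (cf_comm H hb r).symm
  have hsub : ∀ u v : G[X], dd (u - v) = dd u - dd v := fun u v => by
    unfold dd; rw [map_sub, mul_sub]
  have key := core (Z := Subring.center G[X]) (R := G[X]) dd dd_add hsub dd_mul
    ⟨x.1, cen _ hx.fst⟩ ⟨y.1, cen _ hy.fst⟩ ⟨dd x.1, cen _ hx.fst.dd⟩ ⟨dd y.1, cen _ hy.fst.dd⟩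
    rfl rfl x.2 y.2 (dd x.2) (dd (dd x.2)) (dd y.2) rfl rfl rfl
    (cf_sq H hx.snd) (cf_sq H hx.snd.dd) (cf_anti H hx.snd.dd hx.snd) (cf_anti H hy.snd hx.snd)
    (cf_anti H hy.snd.dd hx.snd) (cf_anti H hy.snd hx.snd.dd) (cf_anti H hx.snd.dd.dd hx.snd)
    (fun u v => (u.1 * v.1 + u.2 * dd v.2 - dd u.2 * v.2, u.1 * v.2 + u.2 * v.1))
    (fun _ _ => rfl)
  refine ⟨key.1, fun h3 => key.2 ?_⟩
  apply Subtype.ext
  change (3 : G[X]) = 0
  have : ((3 : F) : F) • (1 : G[X]) = 0 := by rw [h3, zero_smul]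
  rw [← this]
  ext n
  simp only [coeff_smul]
  rw [show (3 : G[X]) = ((3 : ℕ) : G[X]) by norm_num, coeff_natCast_ite, coeff_one]
  split_ifs
  · rw [show (3 : F) = ((3 : ℕ) : F) by norm_num, Nat.cast_smul_eq_nsmul]
    simp
  · simp

end

end Pool.Agent.Lib.MP_a43909_al.SJ
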