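import Pool.Agent.Lib.MP_a43909_al.SJ.Jordan
import Pool.Agent.Lib.MP_a43909_al.SJ.Idents

/-!
# Leading coefficients of the words
-/

set_option autoImplicit false

namespace Pool.Agent.Lib.MP_a43909_al.SJ

open Polynomial

section

variable {G : Type*} [Ring G]

/-- `z` vanishes below level `r` and has coefficients `q`, `t` at level `r` -/
structure Lead (r : ℕ) (z : Jh G) (q t : G) : Prop where
  lo1 : ∀ i < r, z.1.coeff i = 0
  lo2 : ∀ i < r, z.2.coeff i = 0
  at1 : z.1.coeff r = q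
  at2 : z.2.coeff r = t

theorem Lead.mul {r s : ℕ} {z z' : Jh G} {q t q' t' : G} (h : Lead r z q t)
    (h' : Lead s z' q' t') :
    Lead (r + s) (z * z') (q * q' + s • (t * t') - r • (t * t')) (q * t' + t * q') where
  lo1 i hi := by
    have d1 : ∀ i < s, (dd z'.2).coeff i = 0 := fun i hi => by
      rw [coeff_dd, h'.lo2 i hi, mul_zero]
    have d2 : ∀ i < r, (dd z.2).coeff i = 0 := fun i hi => by
      rw [coeff_dd, h.lo2 i hi, mul_zero]
    rw [jmul_fst, coeff_sub, coeff_add, coeff_mul_low h.lo1 h'.lo1 hi,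
      coeff_mul_low h.lo2 d1 hi, coeff_mul_low d2 h'.lo2 hi]
    simp
  lo2 i hi := by
    rw [jmul_snd, coeff_add, coeff_mul_low h.lo1 h'.lo2 hi, coeff_mul_low h.lo2 h'.lo1 hi]
    simp
  at1 := by
    have d1 : ∀ i < s, (dd z'.2).coeff i = 0 := fun i hi => by
      rw [coeff_dd, h'.lo2 i hi, mul_zero]
    have d2 : ∀ i < r, (dd z.2).coeff i = 0 := fun i hi => by
      rw [coeff_dd, h.lo2 i hi, mul_zero]
    rw [jmul_fst, coeff_sub, coeff_add, coeff_mul_lead h.lo1 h'.lo1,
      coeff_mul_lead h.lo2 d1, coeff_mul_lead d2 h'.lo2, coeff_dd, coeff_dd, h.at1, h.at2,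
      h'.at1, h'.at2, nsmul_eq_mul, nsmul_eq_mul, ← mul_assoc t, ← Nat.cast_comm s t, mul_assoc,
      mul_assoc]
  at2 := by
    rw [jmul_snd, coeff_add, coeff_mul_lead h.lo1 h'.lo2, coeff_mul_lead h.lo2 h'.lo1, h.at1,
      h.at2, h'.at1, h'.at2]

/-- multiplication by a letter -/
theorem Lead.letter {r : ℕ} {z x : Jh G} {q t : G} (h : Lead r z q t) (hx : x.1.coeff 0 = 0) :
    Lead r (z * x) (-(r • (t * x.2.coeff 0))) (q * x.2.coeff 0) := by
  have hx' : Lead 0 x 0 (x.2.coeff 0) := ⟨by simp, by simp, hx, rfl⟩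
  have := h.mul hx'
  simpa using this

/-- the product of two elements without constant even term -/
theorem lead_two {u x : Jh G} (hu : u.1.coeff 0 = 0) (hx : x.1.coeff 0 = 0) :
    Lead 1 (u * x) (u.2.coeff 0 * x.2.coeff 1 - u.2.coeff 1 * x.2.coeff 0)
      (u.1.coeff 1 * x.2.coeff 0 + u.2.coeff 0 * x.1.coeff 1) where
  lo1 i hi := by
    obtain rfl : i = 0 := by omega
    rw [jmul_fst, coeff_sub, coeff_add, mul_coeff_zero, mul_coeff_zero, mul_coeff_zero,
      coeff_dd, coeff_dd, hu]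
    simp
  lo2 i hi := by
    obtain rfl : i = 0 := by omega
    rw [jmul_snd, coeff_add, mul_coeff_zero, mul_coeff_zero, hu, hx]
    simp
  at1 := by
    rw [jmul_fst, coeff_sub, coeff_add, mul_coeff_one, mul_coeff_one, mul_coeff_one,
      coeff_dd, coeff_dd, coeff_dd, coeff_dd, hu, hx]
    simp
  at2 := by
    rw [jmul_snd, coeff_add, mul_coeff_one, mul_coeff_one, hu, hx]
    simp

/-- product of the first `n` letters -/
def pr (w : ℕ → G) : ℕ → G
  | 0 => 1
  | n + 1 => pr w n * w n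

theorem pr_congr {w z : ℕ → G} {n : ℕ} (h : ∀ i < n, w i = z i) : pr w n = pr z n := by
  induction n with
  | zero => rfl
  | succ n ih =>
    rw [pr, pr, ih fun i hi => h i (by omega), h n (by omega)]

/-- up to sign -/
def PM (x y : G) : Prop := x = y ∨ x = -y

theorem PM.refl (x : G) : PM x x := Or.inl rfl

theorem PM.neg {x y : G} (h : PM x y) : PM (-x) y := by
  rcases h with h | h
  · right; rw [h]
  · left; rw [h, neg_neg]

theorem PM.mul {x y : G} (h : PM x y) (z : G) : PM (x * z) (y * z) := by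
  rcases h with h | h
  · left; rw [h]
  · right; rw [h, neg_mul]

variable {F : Type*} [Field F] [Algebra F G] {E O : Submodule F G}

/-- first part of the word `V` -/
theorem lead_lword (H : SC E O) {u : Jh G} {x : ℕ → Jh G} (hu : u.1.coeff 0 = 0)
    (hx : ∀ i, (x i).1.coeff 0 = 0) (hxO : ∀ i, (x i).2.coeff 0 ∈ O) (n : ℕ) :
    ∃ κ ∈ E, PM ((x 0).2.coeff 0 * κ) (pr (fun i => (x i).2.coeff 0) (2 * n + 1)) ∧
      Lead 1 (lword u x (2 * n + 1))
        ((u.2.coeff 0 * (x 0).2.coeff 1 - u.2.coeff 1 * (x 0).2.coeff 0) * κ)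
        ((u.1.coeff 1 * (x 0).2.coeff 0 + u.2.coeff 0 * (x 0).1.coeff 1) * κ) := by
  induction n with
  | zero =>
    refine ⟨1, H.one, ?_, ?_⟩
    · left; simp [pr]
    · have := lead_two hu (hx 0)
      simpa [lword] using this
  | succ n ih =>
    obtain ⟨κ, hκ, hpm, hl⟩ := ih
    refine ⟨-(κ * ((x (2 * n + 1)).2.coeff 0 * (x (2 * n + 2)).2.coeff 0)), ?_, ?_, ?_⟩
    · exact E.neg_mem (H.ee _ hκ _ (H.oo _ (hxO _) _ (hxO _)))
    · have h2 := ((hpm.mul ((x (2 * n + 1)).2.coeff 0)).mul ((x (2 * n + 2)).2.coeff 0)).neg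
      have e1 : (x 0).2.coeff 0 * -(κ * ((x (2 * n + 1)).2.coeff 0 * (x (2 * n + 2)).2.coeff 0))
          = -((x 0).2.coeff 0 * κ * (x (2 * n + 1)).2.coeff 0 * (x (2 * n + 2)).2.coeff 0) := by
        noncomm_ring
      rw [e1]
      exact h2
    · have h3 := (hl.letter (hx (2 * n + 1))).letter (hx (2 * n + 2))
      rw [one_smul, one_smul] at h3
      have e : lword u x (2 * (n + 1) + 1) = lword u x (2 * n + 1) * x (2 * n + 1) *
        x (2 * n + 2) := rfl
      rw [e]
      convert h3 using 1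
      · noncomm_ring
      · noncomm_ring

theorem odd_sandwich (H : SC E O) {a h : G} (ha : a ∈ O) (hh : h ∈ O) {κ : G} (hκ : κ ∈ E) :
    a * h * κ * a = 0 := by
  calc a * h * κ * a = a * h * (κ * a) := by rw [mul_assoc]
    _ = a * h * (a * κ) := by rw [H.comm κ hκ]
    _ = a * (h * a) * κ := by noncomm_ring
    _ = - (a * a * h * κ) := by rw [H.anti h hh a ha]; noncomm_ring
    _ = 0 := by rw [H.sq a ha]; simp

theorem even_sandwich (H : SC E O) {a h : G} (ha : a ∈ O) (hh : h ∈ E) {κ : G} (hκ : κ ∈ E) :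
    a * h * κ * a = 0 := by
  calc a * h * κ * a = a * h * (κ * a) := by rw [mul_assoc]
    _ = a * h * (a * κ) := by rw [H.comm κ hκ]
    _ = a * (h * a) * κ := by noncomm_ring
    _ = a * a * h * κ := by rw [H.comm h hh a]; noncomm_ring
    _ = 0 := by rw [H.sq a ha]; simp

/-- second part of the word `V` -/
theorem lead_start (H : SC E O) {u : Jh G} {x : ℕ → Jh G} (hu : Par E O u)
    (hu0 : u.1.coeff 0 = 0) (hx : ∀ i, Par E O (x i)) (hx0 : ∀ i, (x i).1.coeff 0 = 0) (n : ℕ) :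
    ∃ θ ∈ E, θ * u.2.coeff 0 = 0 ∧
      PM θ (pr (fun i => (x i).2.coeff 0) (2 * n + 1) * u.2.coeff 0) ∧
      Lead 1 (lword u x (2 * n + 1) * u) (u.1.coeff 1 * θ) (u.2.coeff 1 * θ) := by
  obtain ⟨κ, hκ, hpm, hl⟩ := lead_lword H hu0 hx0 (fun i => (hx i).snd 0) n
  have haO : u.2.coeff 0 ∈ O := hu.snd 0
  refine ⟨-((x 0).2.coeff 0 * κ * u.2.coeff 0), ?_, ?_, ?_, ?_⟩
  · refine E.neg_mem (H.oo _ ?_ _ haO)
    rw [← H.comm κ hκ]
    exact H.eo _ hκ _ ((hx 0).snd 0)
  · rw [neg_mul, mul_assoc, H.sq _ haO, mul_zero, neg_zero]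
  · exact (hpm.mul _).neg
  · have h3 := hl.letter hu0
    rw [one_smul] at h3
    convert h3 using 1
    · have e1 := even_sandwich H haO ((hx 0).fst 1) hκ
      rw [add_mul, add_mul, e1, add_zero]
      noncomm_ring
    · have e1 := odd_sandwich H haO ((hx 0).snd 1) hκ
      rw [sub_mul, sub_mul, e1, zero_sub]
      noncomm_ring

/-- leading coefficients of the word `V` -/
theorem lead_tword (H : SC E O) {u : Jh G} {y : ℕ → Jh G} (hu : Par E O u)
    (hu0 : u.1.coeff 0 = 0) (hy : ∀ i, Par E O (y i)) (hy0 : ∀ i, (y i).1.coeff 0 = 0)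
    {z : Jh G} {θ : G} (hθ : θ ∈ E) (hθa : θ * u.2.coeff 0 = 0)
    (hz : Lead 1 z (u.1.coeff 1 * θ) (u.2.coeff 1 * θ)) (j : ℕ) :
    ∃ Θ ∈ E, Θ * u.2.coeff 0 = 0 ∧
      PM Θ (θ * pr (fun i => (y i).2.coeff 0) (2 * j)) ∧
      Lead (j + 1) (tword z u y j) (u.1.coeff 1 ^ (j + 1) * Θ)
        ((j + 1) • (u.1.coeff 1 ^ j * u.2.coeff 1 * Θ)) := by
  induction j with
  | zero =>
    refine ⟨θ, hθ, hθa, ?_, ?_⟩
    · left; simp [pr]
    · simpa [tword] using hz
  | succ j ih =>
    obtain ⟨Θ, hΘ, hΘa, hpm, hl⟩ := ih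
    have hΘc := H.comm Θ hΘ
    have hgc := H.comm _ (hu.fst 1)
    have hgo : u.2.coeff 1 * u.2.coeff 1 = 0 := H.sq _ (hu.snd 1)
    refine ⟨-(Θ * ((y (2 * j)).2.coeff 0 * (y (2 * j + 1)).2.coeff 0)), ?_, ?_, ?_, ?_⟩
    · exact E.neg_mem (H.ee _ hΘ _ (H.oo _ ((hy _).snd 0) _ ((hy _).snd 0)))
    · have hvv : (y (2 * j)).2.coeff 0 * (y (2 * j + 1)).2.coeff 0 ∈ E :=
        H.oo _ ((hy _).snd 0) _ ((hy _).snd 0)
      rw [neg_mul, mul_assoc, H.comm _ hvv, ← mul_assoc, hΘa, zero_mul, neg_zero]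
    · have h2 := ((hpm.mul ((y (2 * j)).2.coeff 0)).mul ((y (2 * j + 1)).2.coeff 0)).neg
      have e1 : -(Θ * ((y (2 * j)).2.coeff 0 * (y (2 * j + 1)).2.coeff 0)) =
        -(Θ * (y (2 * j)).2.coeff 0 * (y (2 * j + 1)).2.coeff 0) := by noncomm_ring
      have e2 : θ * pr (fun i => (y i).2.coeff 0) (2 * (j + 1)) =
        θ * pr (fun i => (y i).2.coeff 0) (2 * j) * (y (2 * j)).2.coeff 0 *
          (y (2 * j + 1)).2.coeff 0 := by
        rw [show 2 * (j + 1) = 2 * j + 1 + 1 by ring, pr, pr]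
        noncomm_ring
      rw [e1, e2]
      exact h2
    · have h3 := (lead_two hu0 (hy0 (2 * j))).letter (hy0 (2 * j + 1))
      rw [one_smul] at h3
      have h4 := hl.mul h3
      have e : tword z u y (j + 1) = tword z u y j * ((u * y (2 * j)) * y (2 * j + 1)) := rfl
      rw [e]
      generalize (y (2 * j)).2.coeff 0 = v at *
      generalize (y (2 * j + 1)).2.coeff 0 = v' at *
      generalize (y (2 * j)).2.coeff 1 = ho at *
      generalize (y (2 * j)).1.coeff 1 = he at *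
      generalize u.2.coeff 0 = a at *
      generalize u.1.coeff 1 = ge at *
      generalize u.2.coeff 1 = go at *
      -- products of `Θ` with the two level one coefficients
      have k1 : Θ * -((ge * v + a * he) * v') = ge * -(Θ * (v * v')) := by
        have : Θ * (a * he * v') = 0 := by
          rw [← mul_assoc, ← mul_assoc, hΘa]; simp
        calc Θ * -((ge * v + a * he) * v') = -(Θ * ge * v * v') - Θ * (a * he * v') := by
              noncomm_ring
          _ = ge * -(Θ * (v * v')) := by rw [this, hΘc ge]; noncomm_ring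
      have k2 : Θ * ((a * ho - go * v) * v') = go * -(Θ * (v * v')) := by
        have : Θ * (a * ho * v') = 0 := by
          rw [← mul_assoc, ← mul_assoc, hΘa]; simp
        calc Θ * ((a * ho - go * v) * v') = Θ * (a * ho * v') - (Θ * go * v * v') := by
              noncomm_ring
          _ = go * -(Θ * (v * v')) := by rw [this, hΘc go]; noncomm_ring
      have k3 : ge ^ j * go * Θ * ((a * ho - go * v) * v') = 0 := by
        rw [mul_assoc, k2, ← mul_assoc, mul_assoc (ge ^ j), hgo]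
        simp
      convert h4 using 1
      · rw [smul_mul_assoc, k3, mul_assoc, k1]
        simp only [smul_zero, add_zero, sub_zero]
        rw [pow_succ ge (j + 1), mul_assoc]
      · have r1 : ge ^ (j + 1) * Θ * ((a * ho - go * v) * v') =
            ge ^ (j + 1) * go * -(Θ * (v * v')) := by
          rw [mul_assoc, k2, mul_assoc]
        have r2 : ge ^ j * go * Θ * -((ge * v + a * he) * v') =
            ge ^ (j + 1) * go * -(Θ * (v * v')) := by
          rw [mul_assoc, k1, pow_succ, mul_assoc (ge ^ j) go, ← mul_assoc go ge, ← hgc go]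
          noncomm_ring
        rw [r1, smul_mul_assoc, r2, succ_nsmul, add_comm]

theorem pr_add (z : ℕ → G) (k l : ℕ) : pr z (k + l) = pr z k * pr (fun i => z (k + i)) l := by
  induction l with
  | zero => simp [pr]
  | succ l ih => rw [← add_assoc, pr, pr, ih, mul_assoc]

theorem PM.trans {x y z : G} (h : PM x y) (h' : PM y z) : PM x z := by
  rcases h' with rfl | rfl
  · exact h
  · rcases h with h | h
    · right; exact h
    · left; rw [h, neg_neg]

/-- the sequence of letters of `V` -/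
def lett (n : ℕ) (w : ℕ → G) (a : G) (i : ℕ) : G :=
  if i < 2 * n + 1 then w i else if i = 2 * n + 1 then a else w (i - 1)

/-- leading coefficients of the word `V` -/
theorem lead_vword (H : SC E O) {u : Jh G} {x : ℕ → Jh G} (hu : Par E O u)
    (hu0 : u.1.coeff 0 = 0) (hx : ∀ i, Par E O (x i)) (hx0 : ∀ i, (x i).1.coeff 0 = 0)
    {p : ℕ} (hp : 1 ≤ p) (n : ℕ) :
    ∃ Θ : G, PM Θ (pr (lett n (fun i => (x i).2.coeff 0) (u.2.coeff 0)) (2 * n + 2 * p)) ∧
      (∀ i < p, (vword p n u x).1.coeff i = 0) ∧ (∀ i < p, (vword p n u x).2.coeff i = 0) ∧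
      (vword p n u x).1.coeff p = u.1.coeff 1 ^ p * Θ := by
  obtain ⟨θ, hθ, hθa, hpm, hl⟩ := lead_start H hu hu0 hx hx0 n
  obtain ⟨Θ, -, -, hpm', hl'⟩ := lead_tword H hu hu0 (y := fun i => x (2 * n + 1 + i))
    (fun i => hx _) (fun i => hx0 _) hθ hθa hl (p - 1)
  have hp1 : p - 1 + 1 = p := by omega
  rw [hp1] at hl'
  refine ⟨Θ, ?_, hl'.lo1, hl'.lo2, hl'.at1⟩
  refine hpm'.trans ((hpm.mul _).trans ?_)
  left
  have e : 2 * n + 2 * p = (2 * n + 1) + 1 + 2 * (p - 1) := by omega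
  have e0 : ∀ z : ℕ → G, pr z (2 * n + 2 * p) = pr z (2 * n + 1) * z (2 * n + 1) *
      pr (fun i => z (2 * n + 1 + 1 + i)) (2 * (p - 1)) := by
    intro z
    rw [e, pr_add, pr.eq_2 z (2 * n + 1)]
  rw [e0]
  congr 1
  · congr 1
    · apply pr_congr
      intro i hi
      simp [lett, hi]
    · simp [lett]
  · apply pr_congr
    intro i hi
    simp only [lett]
    rw [if_neg (by omega), if_neg (by omega)]
    congr 3
    omega

end

end Pool.Agent.Lib.MP_a43909_al.SJ
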