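import Pool.Agent.Lib.MP_a43909_al.SJ.Top

/-!
# The variety is not finitely based
-/

set_option autoImplicit false

namespace Pool.Agent.Lib.MP_a43909_al.SJ

open ExteriorAlgebra

universe u

section

variable (F : Type u) [Field F]

/-- the letters -/
noncomputable def Wl {m : ℕ} (W : Submodule F (Fin m → F)) :
    Submodule F (ExteriorAlgebra F (Fin m → F)) := W.map (ι F)

theorem Wl_le {m : ℕ} (W : Submodule F (Fin m → F)) : Wl F W ≤ Od F (Fin m → F) := by
  rintro _ ⟨w, _, rfl⟩
  exact CliffordAlgebra.ι_mem_evenOdd_one _ w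

/-- the identities of solvable Jordan algebras -/
noncomputable def base (s : ℕ) : Set (NPoly F) := {commPoly F, jordanPoly F, solvPoly F (s + 1)}

/-- the whole system -/
noncomputable def sys (p s : ℕ) : Set (NPoly F) := base F s ∪ Set.range (vPoly F p)

variable (p : ℕ) [CharP F p]

/-- the algebra attached to a subspace -/
abbrev Kw {m : ℕ} (W : Submodule F (Fin m → F)) : Type u :=
  KK (sc (F := F) (V := Fin m → F)) (Wl F W) p (topf F m)

theorem Kw_base {m s : ℕ} (hs : p < 2 ^ s) (W : Submodule F (Fin m → F)) :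
    InVariety F (base F s) (Kw F p W) := by
  intro f hf
  simp only [base, Set.mem_insert_iff, Set.mem_singleton_iff] at hf
  rcases hf with rfl | rfl | rfl
  · rw [satisfies_comm]
    exact KK_comm _ _ _ _
  · rw [satisfies_jordan]
    exact KK_jordan _ _ _ _
  · rw [satisfies_solv]
    exact KK_sword _ _ _ _ hs

theorem Kw_small [Fact p.Prime] {m s : ℕ} (hs : p < 2 ^ s) (W : Submodule F (Fin m → F))
    (hW : Module.finrank F W < m) : InVariety F (sys F p s) (Kw F p W) := by
  rintro f (hf | ⟨n, rfl⟩)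
  · exact Kw_base F p hs W f hf
  · rw [satisfies_v]
    intro u x
    refine KK_vword _ _ p _ (Fact.out : p.Prime).one_le n (fun g hg => ev_pow hg) ?_ u x
    intro z hz
    by_cases h : 2 * n + 2 * p = m
    · rw [h, pr_dep W hW z hz, map_zero]
    · choose v hv hvz using hz
      have e : z = fun i => ι F (v i) := by funext i; exact (hvz i).symm
      rw [e]
      exact topf_ne F m h v

theorem Kw_top [Fact p.Prime] (N s : ℕ) :
    ¬ InVariety F (sys F p s) (Kw F p (⊤ : Submodule F (Fin (2 * N + 2 * p) → F))) := by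
  intro h
  have h1 := h _ (Or.inr ⟨N, rfl⟩)
  rw [satisfies_v] at h1
  obtain ⟨u, x, hux⟩ := KK_vword_ne (sc (F := F) (V := Fin (2 * N + 2 * p) → F))
    (Wl F ⊤) p (topf F (2 * N + 2 * p)) (Wl_le F _) (Fact.out : p.Prime).one_le N
    (fun i => ι F (if h : i < 2 * N + 2 * p then Pi.single ⟨i, h⟩ (1 : F) else 0))
    (fun i => ⟨_, trivial, rfl⟩)
    (by rw [topf_basis]; exact one_ne_zero)
  exact hux (h1 u x)

theorem not_finitelyBased [Fact p.Prime] {s : ℕ} (hs : p < 2 ^ s) :
    ¬ FinitelyBased F (sys F p s) := by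
  rintro ⟨T, hTf, hT⟩
  obtain ⟨k, hk⟩ := lift_congr_finite T hTf
  have hp : 1 ≤ p := (Fact.out : p.Prime).one_le
  -- the large algebra fails some identity of `T`
  obtain ⟨m, hm, h1⟩ : ∃ m, k < m ∧
      ¬ InVariety F T (Kw F p (⊤ : Submodule F (Fin m → F))) := by
    refine ⟨2 * k + 2 * p, by omega, ?_⟩
    rw [hT]
    exact Kw_top F p k s
  simp only [InVariety, Satisfies, not_forall] at h1
  obtain ⟨f, hf, φ, hφ⟩ := h1
  have H := sc (F := F) (V := Fin m → F)
  -- representatives
  choose a ha using fun i => qmk_surj (LB_abs H (Wl F ⊤) p (topf F m)) (φ i)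
  have hw : ∀ i, ∃ w : Fin m → F, ι F w = (a i : Jh _).2.coeff 0 := by
    intro i
    obtain ⟨w, -, hw⟩ := (a i).2.2.2
    exact ⟨w, hw⟩
  choose w hw using hw
  let W : Submodule F (Fin m → F) := Submodule.span F (Set.range fun i : Fin k => w i)
  have hWr : Module.finrank F W < m := by
    have h2 : Module.finrank F W ≤ Fintype.card (Fin k) := finrank_range_le_card _
    rw [Fintype.card_fin] at h2
    omega
  -- elements of the small algebra
  have hb : ∀ i, i < k → (a i : Jh _) ∈ BB H (Wl F W) := by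
    intro i hi
    refine ⟨(a i).2.1, (a i).2.2.1, w i, ?_, hw i⟩
    exact Submodule.subset_span ⟨⟨i, hi⟩, rfl⟩
  classical
  let b : ℕ → BB H (Wl F W) := fun i => if hi : i < k then ⟨a i, hb i hi⟩ else 0
  let a' : ℕ → BB H (Wl F ⊤) := fun i => if i < k then a i else 0
  have hba : ∀ i, ((b i : BB H (Wl F W)) : Jh (ExteriorAlgebra F (Fin m → F))) =
      (a' i : BB H (Wl F ⊤)) := by
    intro i
    by_cases hi : i < k
    · simp only [b, a', dif_pos hi, if_pos hi]
    · simp only [b, a', dif_neg hi, if_neg hi]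
      rfl
  have h3 := (hT (Kw F p W)).mpr (Kw_small F p hs W hWr) f hf (fun i => qmk _ (b i))
  have h4 : FreeNonUnitalNonAssocAlgebra.lift F b f ∈ LB H (Wl F W) p (topf F m) := by
    rw [← qmk_eq_zero (LB_abs H (Wl F W) p (topf F m)), ← qhom_apply, hom_lift]
    exact h3
  rw [mem_LB] at h4
  have h5 : ((FreeNonUnitalNonAssocAlgebra.lift F b f : BB H (Wl F W)) :
      Jh (ExteriorAlgebra F (Fin m → F))) =
      ((FreeNonUnitalNonAssocAlgebra.lift F a' f : BB H (Wl F ⊤)) :
      Jh (ExteriorAlgebra F (Fin m → F))) := by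
    have e1 := hom_lift (NonUnitalSubalgebraClass.subtype (R := F) (BB H (Wl F W))) b f
    have e2 := hom_lift (NonUnitalSubalgebraClass.subtype (R := F) (BB H (Wl F ⊤))) a' f
    have e3 : (fun n => NonUnitalSubalgebraClass.subtype (R := F) (BB H (Wl F W)) (b n)) =
        fun n => NonUnitalSubalgebraClass.subtype (R := F) (BB H (Wl F ⊤)) (a' n) := by
      funext i
      exact hba i
    rw [e3, ← e2] at e1
    exact e1
  rw [h5, ← mem_LB, ← qmk_eq_zero (LB_abs H (Wl F ⊤) p (topf F m)), ← qhom_apply, hom_lift] at h4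
  apply hφ
  rw [hk f hf _ φ (fun i => qhom (LB_abs H (Wl F ⊤) p (topf F m)) (a' i))]
  · exact h4
  · intro i hi
    rw [← ha i]
    simp only [a', if_pos hi]
    rfl

end

end Pool.Agent.Lib.MP_a43909_al.SJ
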