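import Mathlib

/-!
# The algebra of pairs of polynomials over a supercommutative ring

`Jh G = G[X] × G[X]` with product
`(b, c) (b', c') = (b b' + c D c' - D c c', b c' + c b')`, `D = X d/dX`.
-/

set_option autoImplicit false

namespace Pool.Agent.Lib.MP_a43909_al.SJ

open Polynomial

/-- even part `E` and odd part `O` of a supercommutative algebra -/
structure SC {F G : Type*} [Field F] [Ring G] [Algebra F G] (E O : Submodule F G) : Prop where
  one : (1 : G) ∈ E
  ee : ∀ x ∈ E, ∀ y ∈ E, x * y ∈ E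
  eo : ∀ x ∈ E, ∀ y ∈ O, x * y ∈ O
  oo : ∀ x ∈ O, ∀ y ∈ O, x * y ∈ E
  comm : ∀ x ∈ E, ∀ y, x * y = y * x
  anti : ∀ x ∈ O, ∀ y ∈ O, x * y = -(y * x)
  sq : ∀ x ∈ O, x * x = 0

section poly

variable {F G : Type*} [Field F] [Ring G] [Algebra F G]

/-- the derivation `X d/dX` -/
noncomputable def dd (b : G[X]) : G[X] := X * derivative b

theorem coeff_dd (b : G[X]) (n : ℕ) : (dd b).coeff n = (n : G) * b.coeff n := by
  unfold dd
  cases n with
  | zero => simp
  | succ n =>
    rw [coeff_X_mul, coeff_derivative, ← Nat.cast_succ, Nat.cast_comm]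

theorem dd_add (b c : G[X]) : dd (b + c) = dd b + dd c := by
  unfold dd; rw [map_add, mul_add]

theorem dd_zero : dd (0 : G[X]) = 0 := by simp [dd]

theorem dd_smul (t : F) (b : G[X]) : dd (t • b) = t • dd b := by
  ext n
  rw [coeff_dd, coeff_smul, coeff_smul, coeff_dd, mul_smul_comm]

theorem dd_mul (b c : G[X]) : dd (b * c) = dd b * c + b * dd c := by
  unfold dd
  rw [derivative_mul, mul_add, ← mul_assoc, ← mul_assoc, ← mul_assoc, X_mul (p := b)]

/-- polynomials all of whose coefficients lie in `E` -/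
def Cf (E : Submodule F G) (b : G[X]) : Prop := ∀ n, b.coeff n ∈ E

theorem Cf.add {E : Submodule F G} {b c : G[X]} (hb : Cf E b) (hc : Cf E c) : Cf E (b + c) :=
  fun n => by rw [coeff_add]; exact E.add_mem (hb n) (hc n)

theorem Cf.sub {E : Submodule F G} {b c : G[X]} (hb : Cf E b) (hc : Cf E c) : Cf E (b - c) :=
  fun n => by rw [coeff_sub]; exact E.sub_mem (hb n) (hc n)

theorem Cf.smul {E : Submodule F G} {b : G[X]} (t : F) (hb : Cf E b) : Cf E (t • b) :=
  fun n => by rw [coeff_smul]; exact E.smul_mem t (hb n)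

theorem Cf.dd {E : Submodule F G} {b : G[X]} (hb : Cf E b) : Cf E (dd b) :=
  fun n => by
    rw [coeff_dd, ← nsmul_eq_mul]
    exact E.nsmul_mem (hb n) n

theorem Cf.mul {E E' E'' : Submodule F G} (h : ∀ x ∈ E, ∀ y ∈ E', x * y ∈ E'') {b c : G[X]}
    (hb : Cf E b) (hc : Cf E' c) : Cf E'' (b * c) :=
  fun n => by
    rw [coeff_mul]
    exact E''.sum_mem fun ij _ => h _ (hb _) _ (hc _)

theorem cf_comm {E O : Submodule F G} (H : SC E O) {b : G[X]} (hb : Cf E b) (c : G[X]) :
    b * c = c * b := by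
  ext n
  rw [coeff_mul, coeff_mul, ← Finset.Nat.sum_antidiagonal_swap]
  exact Finset.sum_congr rfl fun ij _ => H.comm _ (hb _) _

theorem cf_anti {E O : Submodule F G} (H : SC E O) {b c : G[X]} (hb : Cf O b) (hc : Cf O c) :
    b * c = -(c * b) := by
  ext n
  rw [coeff_neg, coeff_mul, coeff_mul, ← Finset.Nat.sum_antidiagonal_swap, ← Finset.sum_neg_distrib]
  exact Finset.sum_congr rfl fun ij _ => H.anti _ (hb _) _ (hc _)

theorem cf_sq {E O : Submodule F G} (H : SC E O) {b : G[X]} (hb : Cf O b) : b * b = 0 := by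
  ext n
  rw [coeff_mul, coeff_zero]
  refine Finset.sum_involution (fun ij _ => (ij.2, ij.1)) ?_ ?_ ?_ ?_
  · intro ij _
    rw [H.anti _ (hb ij.1) _ (hb ij.2)]
    simp
  · intro ij _ hne heq
    apply hne
    have : ij.2 = ij.1 := congrArg Prod.fst heq
    rw [this]
    exact H.sq _ (hb _)
  · intro ij hij
    rw [Finset.HasAntidiagonal.mem_antidiagonal] at hij ⊢
    rw [add_comm]; exact hij
  · intro ij _; rfl

theorem cf_one {E O : Submodule F G} (H : SC E O) : Cf E (1 : G[X]) := by
  intro n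
  rw [coeff_one]
  split_ifs
  · exact H.one
  · exact E.zero_mem

/-- leading coefficient rule -/
theorem coeff_mul_lead {b c : G[X]} {r s : ℕ} (hb : ∀ i < r, b.coeff i = 0)
    (hc : ∀ i < s, c.coeff i = 0) : (b * c).coeff (r + s) = b.coeff r * c.coeff s := by
  rw [coeff_mul]
  rw [Finset.sum_eq_single_of_mem (r, s) (by simp)]
  rintro ⟨i, j⟩ hij hne
  rw [Finset.HasAntidiagonal.mem_antidiagonal] at hij
  simp only at hij ⊢
  rcases lt_trichotomy i r with h | h | h
  · rw [hb i h, zero_mul]
  · exfalso; apply hne; ext <;> simp <;> omega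
  · rw [hc j (by omega), mul_zero]

theorem coeff_mul_low {b c : G[X]} {r s : ℕ} (hb : ∀ i < r, b.coeff i = 0)
    (hc : ∀ i < s, c.coeff i = 0) {n : ℕ} (hn : n < r + s) : (b * c).coeff n = 0 := by
  rw [coeff_mul]
  apply Finset.sum_eq_zero
  rintro ⟨i, j⟩ hij
  rw [Finset.HasAntidiagonal.mem_antidiagonal] at hij
  simp only at hij ⊢
  rcases lt_or_ge i r with h | h
  · rw [hb i h, zero_mul]
  · rw [hc j (by omega), mul_zero]

end poly

/-! ### the algebra of pairs -/

/-- pairs (even polynomial, odd polynomial); parity is imposed later -/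
def Jh (G : Type*) [Ring G] := G[X] × G[X]

section jh

variable {G : Type*} [Ring G]

noncomputable instance : AddCommGroup (Jh G) := inferInstanceAs (AddCommGroup (G[X] × G[X]))

noncomputable instance : Mul (Jh G) :=
  ⟨fun x y => (x.1 * y.1 + x.2 * dd y.2 - dd x.2 * y.2, x.1 * y.2 + x.2 * y.1)⟩

theorem jmul_fst (x y : Jh G) : (x * y).1 = x.1 * y.1 + x.2 * dd y.2 - dd x.2 * y.2 := rfl

theorem jmul_snd (x y : Jh G) : (x * y).2 = x.1 * y.2 + x.2 * y.1 := rfl

theorem jadd_fst (x y : Jh G) : (x + y).1 = x.1 + y.1 := rfl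

theorem jadd_snd (x y : Jh G) : (x + y).2 = x.2 + y.2 := rfl

theorem jzero_fst : (0 : Jh G).1 = 0 := rfl

theorem jzero_snd : (0 : Jh G).2 = 0 := rfl

theorem jext {x y : Jh G} (h1 : x.1 = y.1) (h2 : x.2 = y.2) : x = y := Prod.ext h1 h2

noncomputable instance : NonUnitalNonAssocRing (Jh G) where
  left_distrib x y z := by
    apply jext
    · simp only [jmul_fst, jadd_fst, jadd_snd, dd_add]; noncomm_ring
    · simp only [jmul_snd, jadd_fst, jadd_snd]; noncomm_ring
  right_distrib x y z := by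
    apply jext
    · simp only [jmul_fst, jadd_fst, jadd_snd, dd_add]; noncomm_ring
    · simp only [jmul_snd, jadd_fst, jadd_snd]; noncomm_ring
  zero_mul x := by
    apply jext
    · simp only [jmul_fst, jzero_fst, jzero_snd, dd_zero]; simp
    · simp only [jmul_snd, jzero_fst, jzero_snd]; simp
  mul_zero x := by
    apply jext
    · simp only [jmul_fst, jzero_fst, jzero_snd, dd_zero]; simp
    · simp only [jmul_snd, jzero_fst, jzero_snd]; simp

variable {F : Type*} [Field F] [Algebra F G]

noncomputable instance : Module F (Jh G) := inferInstanceAs (Module F (G[X] × G[X]))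

theorem jsmul_fst (t : F) (x : Jh G) : (t • x).1 = t • x.1 := rfl

theorem jsmul_snd (t : F) (x : Jh G) : (t • x).2 = t • x.2 := rfl

instance : IsScalarTower F (Jh G) (Jh G) where
  smul_assoc t x y := by
    simp only [smul_eq_mul]
    apply jext
    · simp only [jmul_fst, jsmul_fst, jsmul_snd, dd_smul, smul_mul_assoc, smul_add, smul_sub]
    · simp only [jmul_snd, jsmul_fst, jsmul_snd, smul_mul_assoc, smul_add]

instance : SMulCommClass F (Jh G) (Jh G) where
  smul_comm t x y := by
    simp only [smul_eq_mul]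
    apply jext
    · simp only [jmul_fst, jsmul_fst, jsmul_snd, dd_smul, mul_smul_comm, smul_add, smul_sub]
    · simp only [jmul_snd, jsmul_fst, jsmul_snd, mul_smul_comm, smul_add]

/-- `x` has even first and odd second component -/
structure Par (E O : Submodule F G) (x : Jh G) : Prop where
  fst : Cf E x.1
  snd : Cf O x.2

theorem Par.mul {E O : Submodule F G} (H : SC E O) {x y : Jh G} (hx : Par E O x)
    (hy : Par E O y) : Par E O (x * y) where
  fst := by
    rw [jmul_fst]
    exact ((hx.fst.mul H.ee hy.fst).add (hx.snd.mul H.oo hy.snd.dd)).sub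
      (hx.snd.dd.mul H.oo hy.snd)
  snd := by
    rw [jmul_snd]
    refine (hx.fst.mul H.eo hy.snd).add ?_
    rw [← cf_comm H hy.fst]
    exact hy.fst.mul H.eo hx.snd

theorem par_comm {E O : Submodule F G} (H : SC E O) {x y : Jh G} (hx : Par E O x)
    (hy : Par E O y) : x * y = y * x := by
  apply jext
  · rw [jmul_fst, jmul_fst, cf_comm H hx.fst, cf_anti H hx.snd hy.snd.dd,
      cf_anti H hx.snd.dd hy.snd]
    abel
  · rw [jmul_snd, jmul_snd, cf_comm H hx.fst, ← cf_comm H hy.fst]
    abel

end jh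

end Pool.Agent.Lib.MP_a43909_al.SJ
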