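import Pool.Agent.Lib.MP_a43909_al.SJ.Alg
import Pool.Agent.Lib.MP_a43909_al.SJ.Grass

/-!
# The coefficient of the top form
-/

set_option autoImplicit false

namespace Pool.Agent.Lib.MP_a43909_al.SJ

open ExteriorAlgebra

section

variable {F : Type*} [Field F] {V : Type*} [AddCommGroup V] [Module F V]

theorem pr_iota (v : ℕ → V) (n : ℕ) :
    pr (fun i => ι F (v i)) n = ιMulti F n (fun i : Fin n => v i) := by
  induction n with
  | zero => simp [pr]
  | succ n ih =>
    rw [pr, ih, ιMulti_apply, ιMulti_apply, List.ofFn_succ_last, List.prod_append,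
      List.prod_singleton]
    rfl

theorem sc : SC (Ev F V) (Od F V) where
  one := CliffordAlgebra.one_le_evenOdd_zero _ (Submodule.one_le.mp le_rfl)
  ee x hx y hy := by
    have := CliffordAlgebra.evenOdd_mul_le (0 : QuadraticForm F V) 0 0
      (Submodule.mul_mem_mul hx hy)
    simpa using this
  eo x hx y hy := by
    have := CliffordAlgebra.evenOdd_mul_le (0 : QuadraticForm F V) 0 1
      (Submodule.mul_mem_mul hx hy)
    simpa using this
  oo x hx y hy := by
    have := CliffordAlgebra.evenOdd_mul_le (0 : QuadraticForm F V) 1 1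
      (Submodule.mul_mem_mul hx hy)
    have e : (1 : ZMod 2) + 1 = 0 := by decide
    rw [e] at this
    exact this
  comm x hx y := ev_comm hx y
  anti x hx y hy := od_anti hx hy
  sq x hx := od_sq hx

/-- products of many letters from a small space vanish -/
theorem pr_dep (W : Submodule F V) [FiniteDimensional F W] {n : ℕ}
    (hW : Module.finrank F W < n) (z : ℕ → ExteriorAlgebra F V)
    (hz : ∀ i, z i ∈ W.map (ι F)) : pr z n = 0 := by
  choose v hv hvz using hz
  have e : z = fun i => ι F (v i) := by funext i; exact (hvz i).symm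
  rw [e, pr_iota]
  apply AlternatingMap.map_linearDependent
  intro hli
  have h1 : LinearIndependent F (fun i : Fin n => (⟨v i, hv i⟩ : W)) := by
    apply LinearIndependent.of_comp W.subtype
    exact hli
  have := h1.fintype_card_le_finrank
  rw [Fintype.card_fin] at this
  omega

end

section

variable (F : Type*) [Field F] (m : ℕ)

/-- the coefficient of the top form -/
noncomputable def topf : ExteriorAlgebra F (Fin m → F) →ₗ[F] F :=
  liftAlternating (R := F) (M := Fin m → F) (N := F)
    (Pi.single m (Matrix.detRowAlternating (R := F) (n := Fin m)))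

theorem topf_ne {n : ℕ} (h : n ≠ m) (v : ℕ → Fin m → F) :
    topf F m (pr (fun i => ι F (v i)) n) = 0 := by
  rw [pr_iota, topf, liftAlternating_apply_ιMulti, Pi.single_eq_of_ne h]
  rfl

theorem topf_basis :
    topf F m (pr (fun i => ι F (if h : i < m then Pi.single ⟨i, h⟩ (1 : F) else 0)) m) = 1 := by
  rw [pr_iota, topf, liftAlternating_apply_ιMulti, Pi.single_eq_same]
  have e : (fun i : Fin m => (if h : (i : ℕ) < m then
      Pi.single (⟨i, h⟩ : Fin m) (1 : F) else (0 : Fin m → F))) = (1 : Matrix (Fin m) (Fin m) F) := by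
    funext i
    rw [dif_pos i.2]
    funext j
    rw [Matrix.one_apply, Pi.single_apply]
    simp only [Fin.eta, eq_comm]
  rw [e]
  exact Matrix.det_one

end

end Pool.Agent.Lib.MP_a43909_al.SJ
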